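import Pool.Agent.H82.RP.TB

/-!
# Board rpw_modules, row GG: the choice of the function of one variable
-/

set_option autoImplicit false

open Finset Real

namespace Pool.Agent.H3.RP

open Pool.Agent.H31.MP (RS Rgh Me)
open Pool.Agent.H82.RP

lemma mem_RS_iff {z U : ℝ} (hU : 0 ≤ U) {a : ℕ} : a ∈ RS z U ↔ 1 ≤ a ∧ (a : ℝ) ≤ U ∧ Rgh z a := by
  classical
  rw [RS, mem_filter, mem_Icc, Nat.le_floor_iff hU]
  tauto

lemma one_mem_RS {z U : ℝ} (hU : 1 ≤ U) : 1 ∈ RS z U := by
  rw [mem_RS_iff (by linarith)]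
  refine ⟨le_refl _, by simpa using hU, squarefree_one, ?_⟩
  intro p hp hp1
  exact absurd (Nat.dvd_one.1 hp1) hp.one_lt.ne'

theorem pf_GG (hMR : Pool.Agent.H31.MP.T_MR) (hGL : Pool.Agent.H31.MP.T_GL)
    (hGU : Pool.Agent.H31.MP.T_GU) (hLC : Pool.Agent.H31.MP.T_LC)
    (hLD : Pool.Agent.H31.MP.T_LD) : T_GG := by
  classical
  intro lam ε hlam hε
  obtain ⟨c, C1, hc, hC1, hMe⟩ := hMR
  obtain ⟨CU, hCU, hGU'⟩ := hGU
  set M : ℝ := 16 * lam * C1 / (c * ε) with hM
  have hM0 : 0 < M := by positivity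
  set B : ℝ := 4 * Real.exp M with hB
  have hB4 : 4 ≤ B := by
    have := Real.one_le_exp hM0.le
    linarith
  have hB0 : 0 < B := by linarith
  set L : ℝ := Real.log (1 + B / 4) with hL
  have hLM : M ≤ L := by
    have h1 : Real.exp M ≤ 1 + B / 4 := by
      rw [hB]
      linarith
    calc M = Real.log (Real.exp M) := (Real.log_exp M).symm
      _ ≤ L := Real.log_le_log (Real.exp_pos M) h1
  have hL0 : 0 < L := lt_of_lt_of_le hM0 hLM
  refine ⟨128 * lam * C1 * CU * B / (c ^ 2 * L ^ 2), min (1 / (8 * B)) (c * L / (16 * B)),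
    by positivity, lt_min (by positivity) (by positivity), ?_⟩
  intro δ hδ hδ1
  have hδa : δ ≤ 1 / (8 * B) := hδ1.trans (min_le_left _ _)
  have hδb : δ ≤ c * L / (16 * B) := hδ1.trans (min_le_right _ _)
  refine ⟨max 2 ((2 : ℝ) ^ (1 / δ)), ?_⟩
  intro Z hZ
  have hZ2 : 2 ≤ Z := (le_max_left _ _).trans hZ
  have hZp : 0 < Z := by linarith
  have hlogZ : 0 < Real.log Z := Real.log_pos (by linarith)
  set z := Z ^ δ with hz
  set Y := Z ^ (1 / 8 : ℝ) with hY
  have hz2 : 2 ≤ z := by
    have h1 : ((2 : ℝ) ^ (1 / δ)) ^ δ ≤ Z ^ δ :=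
      Real.rpow_le_rpow (by positivity) ((le_max_right _ _).trans hZ) hδ.le
    rw [← Real.rpow_mul (by norm_num), one_div_mul_cancel hδ.ne', Real.rpow_one] at h1
    exact h1
  have hY1 : 1 < Y := Real.one_lt_rpow (by linarith) (by norm_num)
  have hlz : Real.log z = δ * Real.log Z := Real.log_rpow hZp δ
  have hlY : Real.log Y = 1 / 8 * Real.log Z := Real.log_rpow hZp _
  have hlzp : 0 < Real.log z := by rw [hlz]; positivity
  have hlYp : 0 < Real.log Y := by rw [hlY]; positivity
  set S := Real.log Y / Real.log z with hS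
  have hS0 : 0 < S := by positivity
  have hSδ : S = 1 / (8 * δ) := by
    rw [hS, hlz, hlY]
    field_simp
  have hδS : 1 / δ = 8 * S := by
    rw [hSδ]
    field_simp
  have hMez := hMe z hz2
  have hMepos : 0 < Me z := lt_of_lt_of_le (by positivity) hMez.1
  have hlow : ∀ U : ℝ, 1 ≤ U → U ≤ Y →
      c * Real.log U ≤ Real.log z * ∑ a ∈ RS z U, 1 / (a.totient : ℝ) := by
    intro U hU _
    have h1 := hGL z U (by linarith) hU
    have h2 : Real.log U * Me z ≤ ∑ a ∈ RS z U, 1 / (a.totient : ℝ) := by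
      have h3 := mul_le_mul_of_nonneg_right h1 hMepos.le
      rwa [mul_comm (Me z)⁻¹, mul_assoc, inv_mul_cancel₀ hMepos.ne', mul_one] at h3
    have h3 : c ≤ Me z * Real.log z := (div_le_iff₀ hlzp).1 hMez.1
    have h4 : 0 ≤ Real.log U := Real.log_nonneg hU
    calc c * Real.log U ≤ (Me z * Real.log z) * Real.log U := mul_le_mul_of_nonneg_right h3 h4
      _ = Real.log z * (Real.log U * Me z) := by ring
      _ ≤ _ := mul_le_mul_of_nonneg_left h2 hlzp.le
  have hup : ∀ U : ℝ, 1 ≤ U → U ≤ Y →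
      ∑ a ∈ RS z U, 1 / (a.totient : ℝ) ≤ CU * max 1 (Real.log U / Real.log z) :=
    fun U hU _ => hGU' z U hz2 hU
  have hBz : B * Real.log z ≤ Real.log Y := by
    rw [hlz, hlY]
    rw [le_div_iff₀ (by positivity)] at hδa
    have h1 : B * δ ≤ 1 / 8 := by linarith
    calc B * (δ * Real.log Z) = (B * δ) * Real.log Z := by ring
      _ ≤ 1 / 8 * Real.log Z := mul_le_mul_of_nonneg_right h1 hlogZ.le
  obtain ⟨c1, -⟩ := hLC c B z Y hc hB4 hz2 hY1 hlow
  obtain ⟨-, d2⟩ := hLD CU B z Y hCU hB4 hz2 hY1 hBz hup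
  -- the function
  set w : ℕ → ℝ := fun a => 1 / (1 + B * (Real.log a / Real.log Y)) with hw
  have hY0 : 0 ≤ Y := by linarith
  have hY4 : 0 ≤ Y ^ (1 / 4 : ℝ) := Real.rpow_nonneg hY0 _
  have hY41 : 1 ≤ Y ^ (1 / 4 : ℝ) := Real.one_le_rpow hY1.le (by norm_num)
  have hY4Y : Y ^ (1 / 4 : ℝ) ≤ Y := by
    calc Y ^ (1 / 4 : ℝ) ≤ Y ^ (1 : ℝ) := Real.rpow_le_rpow_of_exponent_le hY1.le (by norm_num)
      _ = Y := Real.rpow_one Y
  have hlog : ∀ a : ℕ, 0 ≤ Real.log a / Real.log Y := fun a =>
    div_nonneg (Real.log_natCast_nonneg a) hlYp.le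
  have hden : ∀ a : ℕ, 1 ≤ 1 + B * (Real.log a / Real.log Y) := fun a => by
    have := mul_nonneg hB0.le (hlog a)
    linarith
  have hw0 : ∀ a, 0 < w a := fun a => one_div_pos.2 (by linarith [hden a])
  have hw1 : ∀ a, w a ≤ 1 := fun a => by
    rw [hw]
    simp only
    rw [div_le_one (by linarith [hden a])]
    exact hden a
  have hw11 : w 1 = 1 := by
    rw [hw]
    simp
  set R : Finset ℕ := RS z (Y ^ (1 / 4 : ℝ)) with hR
  have h1R : 1 ∈ R := one_mem_RS hY41
  set A0 : ℝ := ∑ a ∈ R, w a / (a.totient : ℝ) with hA0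
  set A1 : ℝ := ∑ a ∈ R.erase 1, w a / (a.totient : ℝ) with hA1
  have hA01 : A0 = 1 + A1 := by
    rw [hA0, hA1, ← Finset.add_sum_erase R _ h1R, hw11]
    simp
  have hA0low : c * S * (L / B) ≤ A0 := c1
  have hA02 : 2 ≤ A0 := by
    refine le_trans ?_ hA0low
    rw [hSδ]
    rw [le_div_iff₀ (by positivity)] at hδb
    have h1 : c * (1 / (8 * δ)) * (L / B) = c * L / (8 * δ * B) := by
      field_simp
    rw [h1, le_div_iff₀ (by positivity)]
    linarith
  have hA11 : 1 ≤ A1 := by linarith
  have hA1p : 0 < A1 := by linarith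
  have hA1low : c * S * L / (2 * B) ≤ A1 := by
    have h1 : c * S * L / (2 * B) = c * S * (L / B) / 2 := by
      field_simp
    rw [h1]
    linarith
  set g : ℕ → ℝ := fun a => if 1 < a ∧ (a : ℝ) ≤ Y ^ (1 / 4 : ℝ) then w a / A1 else 0 with hg
  have hsum : ∀ h : ℕ → ℝ, (∀ a : ℕ, ¬ (1 < a ∧ (a : ℝ) ≤ Y ^ (1 / 4 : ℝ)) → h a = 0) →
      ∑ a ∈ RS z Y, h a = ∑ a ∈ R.erase 1, h a := by
    intro h hh
    symm
    refine Finset.sum_subset ?_ ?_
    · intro a ha
      have ha' := Finset.mem_of_mem_erase ha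
      rw [hR, mem_RS_iff hY4] at ha'
      rw [mem_RS_iff hY0]
      exact ⟨ha'.1, ha'.2.1.trans hY4Y, ha'.2.2⟩
    · intro a ha hna
      rw [mem_RS_iff hY0] at ha
      refine hh a fun h' => hna ?_
      rw [Finset.mem_erase, hR, mem_RS_iff hY4]
      exact ⟨by omega, ha.1, h'.2, ha.2.2⟩
  have hgR : ∀ a ∈ R.erase 1, g a = w a / A1 := by
    intro a ha
    have ha1 := Finset.ne_of_mem_erase ha
    have ha' := Finset.mem_of_mem_erase ha
    rw [hR, mem_RS_iff hY4] at ha'
    rw [hg]
    simp only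
    rw [if_pos ⟨by omega, ha'.2.1⟩]
  have hg0 : ∀ a : ℕ, ¬ (1 < a ∧ (a : ℝ) ≤ Y ^ (1 / 4 : ℝ)) → g a = 0 := by
    intro a ha
    rw [hg]
    simp only
    rw [if_neg ha]
  have hGH : GH z Y g := by
    refine ⟨?_, ?_, ?_, ?_, ?_⟩
    · intro a
      rw [hg]
      simp only
      split_ifs
      · exact div_nonneg (hw0 a).le hA1p.le
      · exact le_rfl
    · intro a
      rw [hg]
      simp only
      split_ifs
      · rw [div_le_one hA1p]
        exact (hw1 a).trans hA11
      · exact zero_le_one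
    · exact hg0 1 fun h => absurd h.1 (lt_irrefl _)
    · intro a ha
      exact hg0 a fun h => absurd h.2 (not_le.2 ha)
    · rw [hsum (fun a => g a / (a.totient : ℝ)) (fun a ha => by simp only [hg0 a ha, zero_div])]
      have h1 : ∀ a ∈ R.erase 1, g a / (a.totient : ℝ) = (w a / (a.totient : ℝ)) / A1 := by
        intro a ha
        rw [hgR a ha]
        ring
      rw [Finset.sum_congr rfl h1, ← Finset.sum_div, ← hA1, div_self hA1p.ne']
  have hsg : sg z Y g ≤ 4 * CU * S * (1 / B) / A1 ^ 2 := by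
    unfold sg
    rw [hsum (fun a => g a ^ 2 / (a.totient : ℝ)) (fun a ha => by simp only [hg0 a ha]; simp)]
    have h1 : ∀ a ∈ R.erase 1, g a ^ 2 / (a.totient : ℝ) =
        (w a ^ 2 / (a.totient : ℝ)) / A1 ^ 2 := by
      intro a ha
      rw [hgR a ha]
      ring
    rw [Finset.sum_congr rfl h1, ← Finset.sum_div]
    refine div_le_div_of_nonneg_right ?_ (by positivity)
    refine le_trans ?_ d2
    exact Finset.sum_le_sum_of_subset_of_nonneg (Finset.erase_subset _ _)
      fun a _ _ => div_nonneg (sq_nonneg _) (Nat.cast_nonneg _)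
  have hlg : lg z Y g ≤ Real.log Y / (B * A1) := by
    unfold lg
    rw [hsum (fun a => Real.log a * g a ^ 2 / (a.totient : ℝ))
      (fun a ha => by simp only [hg0 a ha]; simp)]
    have h1 : ∀ a ∈ R.erase 1, Real.log a * g a ^ 2 / (a.totient : ℝ) ≤
        (Real.log Y / (B * A1 ^ 2)) * (w a / (a.totient : ℝ)) := by
      intro a ha
      rw [hgR a ha]
      have h2 : Real.log a * w a ^ 2 ≤ Real.log Y / B * w a := by
        have h3 : B * Real.log a * w a ≤ Real.log Y := by
          have h4 : w a * (1 + B * (Real.log a / Real.log Y)) = 1 := by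
            rw [hw]
            simp only
            exact one_div_mul_cancel (by linarith [hden a])
          have h5 : w a * (B * (Real.log a / Real.log Y)) ≤ 1 := by
            have := hw0 a
            nlinarith
          have h6 : B * Real.log a * w a = (w a * (B * (Real.log a / Real.log Y))) * Real.log Y := by
            field_simp
          rw [h6]
          calc _ ≤ 1 * Real.log Y := mul_le_mul_of_nonneg_right h5 hlYp.le
            _ = Real.log Y := one_mul _
        rw [div_mul_eq_mul_div, le_div_iff₀ hB0]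
        calc Real.log a * w a ^ 2 * B = (B * Real.log a * w a) * w a := by ring
          _ ≤ Real.log Y * w a := mul_le_mul_of_nonneg_right h3 (hw0 a).le
      have h7 : Real.log a * (w a / A1) ^ 2 / (a.totient : ℝ) =
          (Real.log a * w a ^ 2) * (1 / (A1 ^ 2 * (a.totient : ℝ))) := by
        rw [div_pow]
        ring
      have h8 : (Real.log Y / (B * A1 ^ 2)) * (w a / (a.totient : ℝ)) =
          (Real.log Y / B * w a) * (1 / (A1 ^ 2 * (a.totient : ℝ))) := by
        field_simp
      rw [h7, h8]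
      exact mul_le_mul_of_nonneg_right h2 (by positivity)
    refine (Finset.sum_le_sum h1).trans ?_
    rw [← Finset.mul_sum, ← hA1]
    refine le_of_eq ?_
    field_simp
  have hlead : lam * Real.log Z * Me z ≤ 8 * lam * C1 * S := by
    have h1 : Me z ≤ C1 / Real.log z := hMez.2
    calc lam * Real.log Z * Me z ≤ lam * Real.log Z * (C1 / Real.log z) :=
          mul_le_mul_of_nonneg_left h1 (by positivity)
      _ = lam * C1 * (1 / δ) := by
          rw [hlz]
          field_simp
      _ = 8 * lam * C1 * S := by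
          rw [hδS]
          ring
  have hlead0 : 0 ≤ lam * Real.log Z * Me z := by positivity
  have hinv : 1 / A1 ≤ 2 * B / (c * S * L) := by
    rw [div_le_div_iff₀ hA1p (by positivity), one_mul]
    rw [div_le_iff₀ (by positivity)] at hA1low
    linarith
  refine ⟨g, hGH, ?_, ?_⟩
  · calc lam * Real.log Z * Me z * sg z Y g
        ≤ (8 * lam * C1 * S) * (4 * CU * S * (1 / B) / A1 ^ 2) := by
          refine mul_le_mul hlead hsg ?_ (by positivity)
          exact Finset.sum_nonneg fun a _ => div_nonneg (sq_nonneg _) (Nat.cast_nonneg _)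
      _ = 32 * lam * C1 * CU * S ^ 2 / B * (1 / A1) ^ 2 := by
          field_simp
          ring
      _ ≤ 32 * lam * C1 * CU * S ^ 2 / B * (2 * B / (c * S * L)) ^ 2 := by
          refine mul_le_mul_of_nonneg_left ?_ (by positivity)
          exact pow_le_pow_left₀ (by positivity) hinv 2
      _ = 128 * lam * C1 * CU * B / (c ^ 2 * L ^ 2) := by
          field_simp
          ring
  · calc lam * Real.log Z * Me z * lg z Y g
        ≤ (8 * lam * C1 * S) * (Real.log Y / (B * A1)) := by
          refine mul_le_mul hlead hlg ?_ (by positivity)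
          exact Finset.sum_nonneg fun a _ => div_nonneg
            (mul_nonneg (Real.log_natCast_nonneg a) (sq_nonneg _)) (Nat.cast_nonneg _)
      _ = 8 * lam * C1 * S * Real.log Y / B * (1 / A1) := by
          field_simp
      _ ≤ 8 * lam * C1 * S * Real.log Y / B * (2 * B / (c * S * L)) :=
          mul_le_mul_of_nonneg_left hinv (by positivity)
      _ = 16 * lam * C1 / c / L * Real.log Y := by
          field_simp
          ring
      _ ≤ ε * Real.log Y := by
          refine mul_le_mul_of_nonneg_right ?_ hlYp.le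
          rw [div_le_iff₀ hL0]
          have h1 : 16 * lam * C1 / c = ε * M := by
            rw [hM]
            field_simp
          rw [h1]
          exact mul_le_mul_of_nonneg_left hLM hε.le

end Pool.Agent.H3.RP
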