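import Pool.Agent.H82.RP.TB

/-!
# Board rpw_modules, row QQS: the size of the norms
-/

set_option autoImplicit false

open Finset Real

namespace Pool.Agent.H3.RP

open Pool.Agent.H31.MP (RS Rgh)
open Pool.Agent.H82.RP

lemma one_le_of_mem_RS {z Y : ℝ} {a : ℕ} (h : a ∈ RS z Y) : 1 ≤ a := by
  classical
  unfold RS at h
  exact (Finset.mem_Icc.1 (Finset.mem_filter.1 h).1).1

lemma sum_BG_prod {s : ℕ} (z Y : ℝ) (f : Fin s → ℕ → ℝ) :
    ∑ r ∈ BG (Fin s) z Y, ∏ i, f i (r i) = ∏ i, ∑ a ∈ RS z Y, f i a := by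
  unfold BG
  exact (Finset.prod_univ_sum (fun _ => RS z Y) f).symm

theorem pf_QQS : T_QQS := by
  classical
  intro z Y g s hY hg
  have hlogY : 0 < Real.log Y := Real.log_pos hY
  set w : ℕ → ℝ := fun a => g a ^ 2 / (a.totient : ℝ) with hw
  have hw0 : ∀ a, 0 ≤ w a := fun a => div_nonneg (sq_nonneg _) (Nat.cast_nonneg _)
  have hsg : sg z Y g = ∑ a ∈ RS z Y, w a := rfl
  have hsg0 : 0 ≤ sg z Y g := by
    rw [hsg]
    exact Finset.sum_nonneg fun a _ => hw0 a
  have hlgt : ∀ a : ℕ, 0 ≤ Real.log a * g a ^ 2 / (a.totient : ℝ) := fun a =>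
    div_nonneg (mul_nonneg (Real.log_natCast_nonneg a) (sq_nonneg _)) (Nat.cast_nonneg _)
  have hlg0 : 0 ≤ lg z Y g := Finset.sum_nonneg fun a _ => hlgt a
  have hsg1 : sg z Y g ≤ 1 := by
    rw [← hg.sum]
    refine Finset.sum_le_sum fun a _ => ?_
    refine div_le_div_of_nonneg_right ?_ (Nat.cast_nonneg _)
    have h0 := hg.nn a
    have h1 := hg.le a
    nlinarith
  have hfull : ∑ r ∈ BG (Fin s) z Y, ∏ i, w (r i) = sg z Y g ^ s := by
    rw [sum_BG_prod z Y (fun _ => w), Finset.prod_const, Finset.card_univ, Fintype.card_fin,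
      ← hsg]
  have hpn : ∀ r : Fin s → ℕ, 0 ≤ ∏ i, w (r i) := fun r => Finset.prod_nonneg fun i _ => hw0 _
  have hqq : qq z Y g s = ∑ r ∈ BG (Fin s) z Y, if ((∏ i, r i : ℕ) : ℝ) ≤ Y then
      ∏ i, w (r i) else 0 := rfl
  have hqq0 : 0 ≤ qq z Y g s := by
    rw [hqq]
    refine Finset.sum_nonneg fun r _ => ?_
    split_ifs
    · exact hpn r
    · exact le_rfl
  have hqq1 : qq z Y g s ≤ sg z Y g ^ s := by
    rw [hqq, ← hfull]
    refine Finset.sum_le_sum fun r _ => ?_
    split_ifs
    · exact le_rfl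
    · exact hpn r
  refine ⟨hqq0, hqq1, ?_, hsg0, hsg1, hlg0⟩
  -- the factorization with one logarithm
  have hone : ∀ i : Fin s, ∑ r ∈ BG (Fin s) z Y, Real.log (r i) * ∏ k, w (r k) =
      lg z Y g * sg z Y g ^ (s - 1) := by
    intro i
    have h1 : ∀ r : Fin s → ℕ, Real.log (r i) * ∏ k, w (r k) =
        ∏ k, (if k = i then Real.log (r k) * w (r k) else w (r k)) := by
      intro r
      rw [← Finset.mul_prod_erase univ (fun k => w (r k)) (Finset.mem_univ i),
        ← Finset.mul_prod_erase univ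
          (fun k => if k = i then Real.log (r k) * w (r k) else w (r k)) (Finset.mem_univ i),
        if_pos rfl, mul_assoc]
      congr 2
      refine Finset.prod_congr rfl fun k hk => ?_
      rw [if_neg (Finset.ne_of_mem_erase hk)]
    rw [Finset.sum_congr rfl fun r _ => h1 r,
      sum_BG_prod z Y (fun k a => if k = i then Real.log a * w a else w a),
      ← Finset.mul_prod_erase univ _ (Finset.mem_univ i)]
    have h2 : ∑ a ∈ RS z Y, (if i = i then Real.log a * w a else w a) = lg z Y g := by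
      refine Finset.sum_congr rfl fun a _ => ?_
      rw [if_pos rfl, hw]
      simp only
      ring
    have h3 : ∏ k ∈ univ.erase i, ∑ a ∈ RS z Y, (if k = i then Real.log a * w a else w a) =
        sg z Y g ^ (s - 1) := by
      have h4 : ∀ k ∈ univ.erase i, ∑ a ∈ RS z Y, (if k = i then Real.log a * w a else w a) =
          sg z Y g := by
        intro k hk
        rw [hsg]
        refine Finset.sum_congr rfl fun a _ => ?_
        rw [if_neg (Finset.ne_of_mem_erase hk)]
      rw [Finset.prod_congr rfl h4, Finset.prod_const, Finset.card_erase_of_mem (Finset.mem_univ i),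
        Finset.card_univ, Fintype.card_fin]
    rw [h2, h3]
  have hdiff : sg z Y g ^ s - qq z Y g s ≤
      ∑ r ∈ BG (Fin s) z Y, (1 / Real.log Y) * ((∑ i, Real.log (r i)) * ∏ k, w (r k)) := by
    rw [hqq, ← hfull, ← Finset.sum_sub_distrib]
    refine Finset.sum_le_sum fun r hr => ?_
    have hr1 : ∀ i, 1 ≤ r i := fun i => by
      unfold BG at hr
      exact one_le_of_mem_RS (Fintype.mem_piFinset.1 hr i)
    have hsl : 0 ≤ ∑ i, Real.log (r i) := Finset.sum_nonneg fun i _ => Real.log_natCast_nonneg _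
    split_ifs with h
    · rw [sub_self]
      exact mul_nonneg (by positivity) (mul_nonneg hsl (hpn r))
    · rw [sub_zero, ← mul_assoc]
      have h1 : Real.log Y ≤ ∑ i, Real.log (r i) := by
        rw [← Real.log_prod (fun i _ => by have := hr1 i; positivity)]
        rw [not_le] at h
        push_cast at h
        exact Real.log_le_log (by linarith) h.le
      have h2 : 1 ≤ 1 / Real.log Y * ∑ i, Real.log (r i) := by
        rw [div_mul_eq_mul_div, one_mul, le_div_iff₀ hlogY]
        linarith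
      calc ∏ i, w (r i) = 1 * ∏ i, w (r i) := (one_mul _).symm
        _ ≤ _ := mul_le_mul_of_nonneg_right h2 (hpn r)
  have hsum : ∑ r ∈ BG (Fin s) z Y, (1 / Real.log Y) * ((∑ i, Real.log (r i)) * ∏ k, w (r k)) =
      s * sg z Y g ^ (s - 1) * lg z Y g / Real.log Y := by
    rw [← Finset.mul_sum]
    have h1 : ∑ r ∈ BG (Fin s) z Y, ((∑ i, Real.log (r i)) * ∏ k, w (r k)) =
        ∑ _i : Fin s, lg z Y g * sg z Y g ^ (s - 1) := by
      simp_rw [Finset.sum_mul]
      rw [Finset.sum_comm]
      exact Finset.sum_congr rfl fun i _ => hone i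
    rw [h1, Finset.sum_const, Finset.card_univ, Fintype.card_fin, nsmul_eq_mul]
    ring
  have hpos : 0 ≤ s * sg z Y g ^ (s - 1) * lg z Y g / Real.log Y := by positivity
  have htq : tq z Y g s = 4 / 3 * (s * sg z Y g ^ (s - 1) * lg z Y g / Real.log Y) := rfl
  rw [htq]
  rw [hsum] at hdiff
  linarith

end Pool.Agent.H3.RP
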